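import Mathlib

/-!
Averaging over the orthogonal group (for MP_aeade1_gt).
-/

set_option autoImplicit false

open MeasureTheory Set

namespace Pool.Agent.H971R3.FV

/-- AVERAGE.  There is a compact probability space of rotations `R ω` of `ℝ^(d+1)` such that for
every unit vector `v` the law of `R ω v` is the normalised surface measure of the sphere. -/
def TaskAvg : Prop := ∀ d : ℕ, 1 ≤ d →
  ∃ (Ω : Type) (_ : TopologicalSpace Ω) (_ : CompactSpace Ω) (_ : MeasurableSpace Ω)
    (_ : BorelSpace Ω) (P : Measure Ω) (_ : IsProbabilityMeasure P)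
    (R : Ω → (EuclideanSpace ℝ (Fin (d + 1)) ≃ₗᵢ[ℝ] EuclideanSpace ℝ (Fin (d + 1)))),
    (∀ v, Continuous fun ω => R ω v) ∧
    ∀ F : EuclideanSpace ℝ (Fin (d + 1)) → ℝ, ContinuousOn F (Metric.sphere 0 1) →
      ∀ v : EuclideanSpace ℝ (Fin (d + 1)), ‖v‖ = 1 →
      (∫ ω, F (R ω v) ∂P) *
          ((volume : Measure (EuclideanSpace ℝ (Fin (d + 1)))).toSphere).real univ =
        ∫ u, F u ∂((volume : Measure (EuclideanSpace ℝ (Fin (d + 1)))).toSphere)

end Pool.Agent.H971R3.FV
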