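import Mathlib

/-!
Reparametrisation and volume statements (for MP_aeade1_gt).
-/

set_option autoImplicit false

open MeasureTheory Set

namespace Pool.Agent.H971R3.FV

/-- The distance in `X` of the endpoints of the image of a `C^1` curve is at most its length for
`A(r)² (dr² + f(r)² g_S)`. -/
def ShortA {V X : Type*} [NormedAddCommGroup V] [InnerProductSpace ℝ V] [PseudoMetricSpace X]
    (L : ℝ) (A f : ℝ → ℝ) (Φ : ℝ → V → X) : Prop :=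
  ∀ (r r' : ℝ → ℝ) (u u' : ℝ → V) (a b : ℝ), a ≤ b →
    (∀ t ∈ Icc a b, HasDerivWithinAt r (r' t) (Icc a b) t) →
    (∀ t ∈ Icc a b, HasDerivWithinAt u (u' t) (Icc a b) t) →
    ContinuousOn r' (Icc a b) → ContinuousOn u' (Icc a b) →
    (∀ t ∈ Icc a b, r t ∈ Icc 0 L ∧ ‖u t‖ = 1) →
    dist (Φ (r a) (u a)) (Φ (r b) (u b)) ≤
      ∫ t in a..b, A (r t) * Real.sqrt ((r' t) ^ 2 + (f (r t)) ^ 2 * ‖u' t‖ ^ 2)

/-- REPAR.  Arc length reparametrisation `s = ∫_0^r A` turns `A² (dr² + f² g_S)` into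
`ds² + g(s)² g_S`, `g(s) = A(r) f(r)`. -/
def TaskRepar : Prop := ∀ (V X : Type) [NormedAddCommGroup V] [InnerProductSpace ℝ V]
    [PseudoMetricSpace X] (L : ℝ) (A f : ℝ → ℝ) (Φ : ℝ → V → X),
    0 < L → Continuous A → Continuous f → (∀ r ∈ Icc (0 : ℝ) L, 0 < A r) →
    (∀ r ∈ Ioc (0 : ℝ) L, 0 < f r) → ShortA L A f Φ →
    ∃ g h : ℝ → ℝ, Continuous g ∧ 0 < (∫ r in (0 : ℝ)..L, A r) ∧
      (∀ s ∈ Ioc (0 : ℝ) (∫ r in (0 : ℝ)..L, A r), 0 < g s) ∧ (f 0 = 0 → g 0 = 0) ∧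
      h (∫ r in (0 : ℝ)..L, A r) = L ∧
      ShortA (∫ r in (0 : ℝ)..L, A r) (fun _ => 1) g (fun s u => Φ (h s) u) ∧
      ∀ d : ℕ, (∫ s in (0 : ℝ)..(∫ r in (0 : ℝ)..L, A r), g s ^ d) =
        ∫ r in (0 : ℝ)..L, A r ^ (d + 1) * f r ^ d

/-- VOL.  Power mean inequality on the spheres and Fubini. -/
def TaskVol : Prop := ∀ (d : ℕ) (L : ℝ) (f : ℝ → ℝ)
    (φ : ℝ → EuclideanSpace ℝ (Fin (d + 1)) → ℝ), 1 ≤ d → 0 < L → Continuous f →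
    Continuous (fun p : ℝ × EuclideanSpace ℝ (Fin (d + 1)) => φ p.1 p.2) →
    (∀ r ∈ Ioc (0 : ℝ) L, 0 < f r) → (∀ r ∈ Icc (0 : ℝ) L, ∀ u, ‖u‖ = 1 → 0 < φ r u) →
    ∀ A : ℝ → ℝ, (∀ r, A r * ((volume : Measure (EuclideanSpace ℝ (Fin (d + 1)))).toSphere).real
        univ = ∫ u, φ r u ∂((volume : Measure (EuclideanSpace ℝ (Fin (d + 1)))).toSphere)) →
    Continuous A ∧ (∀ r ∈ Icc (0 : ℝ) L, 0 < A r) ∧
    ENNReal.ofReal (∫ r in (0 : ℝ)..L, A r ^ (d + 1) * f r ^ d) *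
        (volume : Measure (EuclideanSpace ℝ (Fin (d + 1)))).toSphere univ ≤
      ∫⁻ p in Ioc (0 : ℝ) L ×ˢ univ, ENNReal.ofReal (φ p.1 p.2 ^ (d + 1) * f p.1 ^ d)
        ∂(volume.prod ((volume : Measure (EuclideanSpace ℝ (Fin (d + 1)))).toSphere))

end Pool.Agent.H971R3.FV
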