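import Mathlib
import Pool.Agent.H971R3.FV.Stmts2
import Pool.Agent.H971R3.FV.Stmts3

set_option autoImplicit false

open MeasureTheory Set

namespace Pool.Agent.H971R3.FV

/-- The distance in `X` between the endpoints of the image of a `C^1` curve `(r, u)` of
`[0,L] × S^d` is at most its length for the metric `φ(r,u)² (dr² + f(r)² g_S)`. -/
def ShortConformal {V X : Type*} [NormedAddCommGroup V] [InnerProductSpace ℝ V]
    [PseudoMetricSpace X] (L : ℝ) (f : ℝ → ℝ) (φ : ℝ → V → ℝ) (Φ : ℝ → V → X) : Prop :=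
  ∀ (r r' : ℝ → ℝ) (u u' : ℝ → V) (a b : ℝ), a ≤ b →
    (∀ t ∈ Icc a b, HasDerivWithinAt r (r' t) (Icc a b) t) →
    (∀ t ∈ Icc a b, HasDerivWithinAt u (u' t) (Icc a b) t) →
    ContinuousOn r' (Icc a b) → ContinuousOn u' (Icc a b) →
    (∀ t ∈ Icc a b, r t ∈ Icc 0 L ∧ ‖u t‖ = 1) →
    dist (Φ (r a) (u a)) (Φ (r b) (u b)) ≤
      ∫ t in a..b, φ (r t) (u t) * Real.sqrt ((r' t) ^ 2 + (f (r t)) ^ 2 * ‖u' t‖ ^ 2)

section avg

variable {n : ℕ} {X : Type} [PseudoMetricSpace X] {Ω : Type} [TopologicalSpace Ω]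
  [CompactSpace Ω] [MeasurableSpace Ω] [BorelSpace Ω] (P : Measure Ω) [IsProbabilityMeasure P]
  (R : Ω → (EuclideanSpace ℝ (Fin n) ≃ₗᵢ[ℝ] EuclideanSpace ℝ (Fin n)))
  (L : ℝ) (Φ : ℝ → EuclideanSpace ℝ (Fin n) → X) (x0 : EuclideanSpace ℝ (Fin n))

/-- clamp a radius to `[0,L]` -/
noncomputable def Cl (L r : ℝ) : ℝ := max 0 (min L r)

lemma Cl_mem {L : ℝ} (hL : 0 ≤ L) (r : ℝ) : Cl L r ∈ Icc 0 L :=
  ⟨le_max_left _ _, max_le hL (min_le_left _ _)⟩

lemma Cl_eq {L r : ℝ} (hr : r ∈ Icc 0 L) : Cl L r = r := by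
  unfold Cl
  rw [min_eq_right hr.2, max_eq_right hr.1]

open Classical in
/-- force a vector to have norm one -/
noncomputable def Nu (u : EuclideanSpace ℝ (Fin n)) : EuclideanSpace ℝ (Fin n) :=
  if ‖u‖ = 1 then u else x0

lemma Nu_norm (hx0 : ‖x0‖ = 1) (u : EuclideanSpace ℝ (Fin n)) : ‖Nu x0 u‖ = 1 := by
  unfold Nu
  split_ifs with h
  · exact h
  · exact hx0

lemma Nu_eq {u : EuclideanSpace ℝ (Fin n)} (hu : ‖u‖ = 1) : Nu x0 u = u := by
  unfold Nu
  rw [if_pos hu]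

/-- averaged distance -/
noncomputable def hd (p q : ℝ × EuclideanSpace ℝ (Fin n)) : ℝ :=
  ∫ ω, dist (Φ (Cl L p.1) (R ω (Nu x0 p.2))) (Φ (Cl L q.1) (R ω (Nu x0 q.2))) ∂P

variable {R L Φ x0}

lemma cont_pt (hR : ∀ v, Continuous fun ω => R ω v)
    (hΦ : ∀ r ∈ Icc 0 L, ContinuousOn (Φ r) (Metric.sphere 0 1))
    {r : ℝ} (hr : r ∈ Icc 0 L) {v : EuclideanSpace ℝ (Fin n)} (hv : ‖v‖ = 1) :
    Continuous fun ω => Φ r (R ω v) :=
  (hΦ r hr).comp_continuous (hR v) (fun ω => by simp [hv])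

lemma integrable_pt (hR : ∀ v, Continuous fun ω => R ω v)
    (hΦ : ∀ r ∈ Icc 0 L, ContinuousOn (Φ r) (Metric.sphere 0 1))
    {r : ℝ} (hr : r ∈ Icc 0 L) {v : EuclideanSpace ℝ (Fin n)} (hv : ‖v‖ = 1)
    {s : ℝ} (hs : s ∈ Icc 0 L) {w : EuclideanSpace ℝ (Fin n)} (hw : ‖w‖ = 1) :
    Integrable (fun ω => dist (Φ r (R ω v)) (Φ s (R ω w))) P :=
  ((cont_pt hR hΦ hr hv).dist (cont_pt hR hΦ hs hw)).integrable_of_hasCompactSupport
    (HasCompactSupport.of_compactSpace _)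

/-- The pseudo metric space of averaged distances. -/
noncomputable def hatPM (hL : 0 ≤ L) (hx0 : ‖x0‖ = 1) (hR : ∀ v, Continuous fun ω => R ω v)
    (hΦ : ∀ r ∈ Icc 0 L, ContinuousOn (Φ r) (Metric.sphere 0 1)) :
    PseudoMetricSpace (ℝ × EuclideanSpace ℝ (Fin n)) where
  dist := hd P R L Φ x0
  dist_self p := by simp [hd]
  dist_comm p q := by simp only [hd, dist_comm]
  dist_triangle p q s := by
    have i1 := integrable_pt P hR hΦ (Cl_mem hL p.1) (Nu_norm x0 hx0 p.2)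
      (Cl_mem hL q.1) (Nu_norm x0 hx0 q.2)
    have i2 := integrable_pt P hR hΦ (Cl_mem hL q.1) (Nu_norm x0 hx0 q.2)
      (Cl_mem hL s.1) (Nu_norm x0 hx0 s.2)
    have i3 := integrable_pt P hR hΦ (Cl_mem hL p.1) (Nu_norm x0 hx0 p.2)
      (Cl_mem hL s.1) (Nu_norm x0 hx0 s.2)
    unfold hd
    rw [← integral_add i1 i2]
    exact integral_mono i3 (i1.add i2) (fun ω => dist_triangle _ _ _)

lemma joint_cont (hR : ∀ v, Continuous fun ω => R ω v) :
    Continuous fun p : Ω × EuclideanSpace ℝ (Fin n) => R p.1 p.2 := by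
  have h : (fun p : Ω × EuclideanSpace ℝ (Fin n) => R p.1 p.2) =
      fun p => ∑ i, p.2 i • R p.1 (EuclideanSpace.single i (1 : ℝ)) := by
    funext p
    have h1 : p.2 = ∑ i, p.2 i • EuclideanSpace.single i (1 : ℝ) := by
      have := (EuclideanSpace.basisFun (Fin n) ℝ).sum_repr p.2
      simpa using this.symm
    conv_lhs => rw [h1]
    simp only [map_sum, map_smul]
  rw [h]
  refine continuous_finsetSum _ (fun i _ => ?_)
  have e1 : Continuous fun p : Ω × EuclideanSpace ℝ (Fin n) => p.2 i :=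
    (EuclideanSpace.proj (𝕜 := ℝ) i).continuous.comp continuous_snd
  have e2 : Continuous fun p : Ω × EuclideanSpace ℝ (Fin n) =>
      R p.1 (EuclideanSpace.single i (1 : ℝ)) :=
    (hR (EuclideanSpace.single i (1 : ℝ))).comp continuous_fst
  exact e1.smul e2

lemma avg_short (hL : 0 < L) (hx0 : ‖x0‖ = 1) (hR : ∀ v, Continuous fun ω => R ω v)
    (hΦ : ∀ r ∈ Icc 0 L, ContinuousOn (Φ r) (Metric.sphere 0 1))
    {f : ℝ → ℝ} (hf : Continuous f) {φ : ℝ → EuclideanSpace ℝ (Fin n) → ℝ}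
    (hφ : Continuous (fun p : ℝ × EuclideanSpace ℝ (Fin n) => φ p.1 p.2))
    (hsh : ShortConformal L f φ Φ) {A : ℝ → ℝ}
    (hA : ∀ r v, ‖v‖ = 1 → ∫ ω, φ r (R ω v) ∂P = A r) :
    @ShortA (EuclideanSpace ℝ (Fin n)) (ℝ × EuclideanSpace ℝ (Fin n)) _ _
      (hatPM P hL.le hx0 hR hΦ) L A f (fun r u => (r, u)) := by
  intro r r' u u' a b hab h1 h2 h3 h4 h5
  -- the clamped curve
  set c : ℝ → ℝ := fun t => max a (min b t) with hc
  have hcc : Continuous c := continuous_const.max (continuous_const.min continuous_id)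
  have hcm : ∀ t, c t ∈ Icc a b := fun t => ⟨le_max_left _ _, max_le hab (min_le_left _ _)⟩
  have hce : ∀ t ∈ Icc a b, c t = t := fun t ht => by
    simp only [hc]; rw [min_eq_right ht.2, max_eq_right ht.1]
  have hrc : ContinuousOn r (Icc a b) := fun t ht => (h1 t ht).continuousWithinAt
  have huc : ContinuousOn u (Icc a b) := fun t ht => (h2 t ht).continuousWithinAt
  have hr2 : Continuous fun t => r (c t) := hrc.comp_continuous hcc hcm
  have hu2 : Continuous fun t => u (c t) := huc.comp_continuous hcc hcm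
  have hr3 : Continuous fun t => r' (c t) := h3.comp_continuous hcc hcm
  have hu3 : Continuous fun t => u' (c t) := h4.comp_continuous hcc hcm
  set w : ℝ → ℝ := fun t => Real.sqrt ((r' (c t)) ^ 2 + (f (r (c t))) ^ 2 * ‖u' (c t)‖ ^ 2)
    with hw
  have hwc : Continuous w :=
    ((hr3.pow 2).add (((hf.comp hr2).pow 2).mul (hu3.norm.pow 2))).sqrt
  set K : Ω → ℝ → ℝ := fun ω t => φ (r (c t)) (R ω (u (c t))) * w t with hK
  have hKc : Continuous (Function.uncurry K) := by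
    have e1 : Continuous fun p : Ω × ℝ => R p.1 (u (c p.2)) :=
      (joint_cont hR).comp (continuous_fst.prodMk (hu2.comp continuous_snd))
    have e2 : Continuous fun p : Ω × ℝ => φ (r (c p.2)) (R p.1 (u (c p.2))) :=
      hφ.comp ((hr2.comp continuous_snd).prodMk e1)
    exact e2.mul (hwc.comp continuous_snd)
  -- bound
  obtain ⟨M1, hM1⟩ := (isCompact_Icc.prod (isCompact_sphere (0 : EuclideanSpace ℝ (Fin n)) 1)
    ).exists_bound_of_continuousOn (f := fun p : ℝ × EuclideanSpace ℝ (Fin n) => φ p.1 p.2)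
    (s := Icc 0 L ×ˢ Metric.sphere 0 1) hφ.continuousOn
  obtain ⟨M2, hM2⟩ := (isCompact_Icc (a := a) (b := b)).exists_bound_of_continuousOn
    hwc.continuousOn
  have hKb : ∀ ω, ∀ t, ‖K ω t‖ ≤ M1 * M2 := by
    intro ω t
    have e1 := hM1 (r (c t), R ω (u (c t)))
      ⟨(h5 _ (hcm t)).1, by simp [(h5 _ (hcm t)).2]⟩
    have hcct : c (c t) = c t := hce _ (hcm t)
    have e2 := hM2 (c t) (hcm t)
    have e3 : w (c t) = w t := by simp only [hw, hcct]
    rw [e3] at e2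
    simp only [hK, norm_mul]
    exact mul_le_mul e1 e2 (norm_nonneg _) ((norm_nonneg _).trans e1)
  have hKint : Integrable (Function.uncurry K) (P.prod (volume.restrict (Ioc a b))) := by
    refine Integrable.of_bound hKc.aestronglyMeasurable (M1 * M2)
      (Filter.Eventually.of_forall fun p => hKb p.1 p.2)
  -- the inequality for each rotation
  have hpt : ∀ ω, dist (Φ (r a) (R ω (u a))) (Φ (r b) (R ω (u b))) ≤
      ∫ t in Ioc a b, K ω t := by
    intro ω
    have h := hsh r r' (fun t => R ω (u t)) (fun t => R ω (u' t)) a b hab h1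
      (fun t ht => by
        have := ((R ω).toContinuousLinearEquiv.toContinuousLinearMap.hasFDerivAt
          (x := u t)).comp_hasDerivWithinAt t (h2 t ht)
        exact this)
      h3 ((R ω).continuous.comp_continuousOn h4)
      (fun t ht => ⟨(h5 t ht).1, by simp [(h5 t ht).2]⟩)
    refine h.trans (le_of_eq ?_)
    rw [intervalIntegral.integral_of_le hab]
    refine setIntegral_congr_fun measurableSet_Ioc (fun t ht => ?_)
    have : c t = t := hce t (Ioc_subset_Icc_self ht)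
    simp only [hK, hw, this, LinearIsometryEquiv.norm_map]
  have hda : Cl L (r a) = r a := Cl_eq (h5 a ⟨le_rfl, hab⟩).1
  have hdb : Cl L (r b) = r b := Cl_eq (h5 b ⟨hab, le_rfl⟩).1
  have hna : Nu x0 (u a) = u a := Nu_eq _ (h5 a ⟨le_rfl, hab⟩).2
  have hnb : Nu x0 (u b) = u b := Nu_eq _ (h5 b ⟨hab, le_rfl⟩).2
  change hd P R L Φ x0 (r a, u a) (r b, u b) ≤ _
  unfold hd
  simp only [hda, hdb, hna, hnb]
  have i1 := integrable_pt P hR hΦ (h5 a ⟨le_rfl, hab⟩).1 (h5 a ⟨le_rfl, hab⟩).2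
    (h5 b ⟨hab, le_rfl⟩).1 (h5 b ⟨hab, le_rfl⟩).2
  refine (integral_mono i1 hKint.integral_prod_left hpt).trans (le_of_eq ?_)
  change (∫ ω, (∫ t in Ioc a b, K ω t) ∂P) = _
  rw [integral_integral_swap hKint, intervalIntegral.integral_of_le hab]
  refine setIntegral_congr_fun measurableSet_Ioc (fun t ht => ?_)
  have hct : c t = t := hce t (Ioc_subset_Icc_self ht)
  simp only [hK, hw, hct]
  rw [integral_mul_const, hA _ _ (h5 t (Ioc_subset_Icc_self ht)).2]

end avg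

end Pool.Agent.H971R3.FV
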