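import Mathlib

/-!
Definitions and task statements for the sharp filling volume inequality of fillings with a
rotationally symmetric collar (MP_aeade1_gt).
-/

set_option autoImplicit false

open MeasureTheory Set

namespace Pool.Agent.H971R3.FV

/-- `W d = ∫_0^{π/2} cos^d`. -/
noncomputable def W (d : ℕ) : ℝ := ∫ x in (0 : ℝ)..(Real.pi / 2), Real.cos x ^ d

/-- `c d = ∫_0^1 u^(d-1) √(1-u²) du`. -/
noncomputable def c (d : ℕ) : ℝ := ∫ u in (0 : ℝ)..1, u ^ (d - 1) * Real.sqrt (1 - u ^ 2)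

/-- The excess integral `E(ρ) = ∫_0^L √(1 - ρ²/f(r)²) dr` (`Real.sqrt` is `0` on negative
numbers). -/
noncomputable def E (f : ℝ → ℝ) (L ρ : ℝ) : ℝ :=
  ∫ r in (0 : ℝ)..L, Real.sqrt (1 - (ρ / f r) ^ 2)

/-- WALLIS.  Substitute `u = cos x` in `c d`: `c d = ∫_0^{π/2} cos^(d-1) sin^2 = W(d-1) - W(d+1) =
W(d-1)/(d+1)`; then `W d * W (d-1) = π/(2d)` by induction. -/
def TaskWallis : Prop := ∀ d : ℕ, 1 ≤ d → c d * W d * ((d : ℝ) * (d + 1)) = Real.pi / 2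

/-- SPHERE.  The surface measure of the unit sphere of `ℝ^(d+2)` is `2 W(d)` times the surface
measure of the unit sphere of `ℝ^(d+1)`. -/
def TaskSphere : Prop := ∀ d : ℕ, 1 ≤ d →
  (volume : Measure (EuclideanSpace ℝ (Fin (d + 2)))).toSphere univ =
    ENNReal.ofReal (2 * W d) *
      (volume : Measure (EuclideanSpace ℝ (Fin (d + 1)))).toSphere univ

/-- FUBINI.  If `E(ρ) ≥ (π/2)(1-ρ)` for all `ρ ∈ (0,1)` then
`π/2 ≤ d(d+1) c(d) ∫_0^L f^d`. -/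
def TaskFubini : Prop := ∀ (d : ℕ) (L : ℝ) (f : ℝ → ℝ), 1 ≤ d → 0 < L → Continuous f →
  (∀ r ∈ Ioc (0 : ℝ) L, 0 < f r) →
  (∀ ρ ∈ Ioo (0 : ℝ) 1, Real.pi / 2 * (1 - ρ) ≤ E f L ρ) →
  Real.pi / 2 ≤ (d : ℝ) * (d + 1) * c d * ∫ r in (0 : ℝ)..L, f r ^ d

end Pool.Agent.H971R3.FV
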