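import Mathlib
import Pool.Agent.H971R3.FV.Stmts

set_option autoImplicit false

open MeasureTheory Set

namespace Pool.Agent.H971R3.FV

/-- `Φ` does not increase lengths: the distance in `X` between the endpoints of the image of a
`C^1` curve `(r, u)` of `[0,L] × S` is at most its length for the warped product metric
`dr² + f(r)² g_S`. -/
def ShortOnCurves {V X : Type*} [NormedAddCommGroup V] [InnerProductSpace ℝ V] [PseudoMetricSpace X]
    (L : ℝ) (f : ℝ → ℝ) (Φ : ℝ → V → X) : Prop :=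
  ∀ (r r' : ℝ → ℝ) (u u' : ℝ → V) (a b : ℝ), a ≤ b →
    (∀ t ∈ Icc a b, HasDerivWithinAt r (r' t) (Icc a b) t) →
    (∀ t ∈ Icc a b, HasDerivWithinAt u (u' t) (Icc a b) t) →
    ContinuousOn r' (Icc a b) → ContinuousOn u' (Icc a b) →
    (∀ t ∈ Icc a b, r t ∈ Icc 0 L ∧ ‖u t‖ = 1) →
    dist (Φ (r a) (u a)) (Φ (r b) (u b)) ≤
      ∫ t in a..b, Real.sqrt ((r' t) ^ 2 + (f (r t)) ^ 2 * ‖u' t‖ ^ 2)

variable {V X : Type*} [NormedAddCommGroup V] [InnerProductSpace ℝ V] [PseudoMetricSpace X]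

lemma norm_cs {x y : V} (hx : ‖x‖ = 1) (hy : ‖y‖ = 1) (hxy : inner ℝ x y = 0) (p q : ℝ) :
    ‖p • x + q • y‖ ^ 2 = p ^ 2 + q ^ 2 := by
  have h : inner ℝ (p • x) (q • y) = 0 := by
    rw [inner_smul_left, inner_smul_right, hxy]; simp
  have := norm_add_sq_eq_norm_sq_add_norm_sq_of_inner_eq_zero (p • x) (q • y) h
  rw [pow_two, this, norm_smul, norm_smul, hx, hy]
  simp only [Real.norm_eq_abs, mul_one, abs_mul_abs_self]
  ring

lemma norm_cs_one {x y : V} (hx : ‖x‖ = 1) (hy : ‖y‖ = 1) (hxy : inner ℝ x y = 0) (t : ℝ) :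
    ‖Real.cos t • x + Real.sin t • y‖ = 1 := by
  have h := norm_cs hx hy hxy (Real.cos t) (Real.sin t)
  rw [Real.cos_sq_add_sin_sq] at h
  have h0 := norm_nonneg (Real.cos t • x + Real.sin t • y)
  nlinarith [h, h0, sq_nonneg (‖Real.cos t • x + Real.sin t • y‖ - 1)]

/-- The circle at radius `s`. -/
lemma circle_le {L : ℝ} {f : ℝ → ℝ} {Φ : ℝ → V → X} (hΦ : ShortOnCurves L f Φ)
    {x y : V} (hx : ‖x‖ = 1) (hy : ‖y‖ = 1) (hxy : inner ℝ x y = 0)
    {s : ℝ} (hs : s ∈ Icc 0 L) (hfs : 0 ≤ f s) {α β : ℝ} (hαβ : α ≤ β) :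
    dist (Φ s (Real.cos α • x + Real.sin α • y)) (Φ s (Real.cos β • x + Real.sin β • y)) ≤
      f s * (β - α) := by
  have h := hΦ (fun _ => s) (fun _ => 0) (fun t => Real.cos t • x + Real.sin t • y)
    (fun t => (-Real.sin t) • x + Real.cos t • y) α β hαβ
    (fun t _ => (hasDerivWithinAt_const t _ s))
    (fun t _ => by
      have h1 : HasDerivAt (fun t : ℝ => Real.cos t • x) ((-Real.sin t) • x) t :=
        (Real.hasDerivAt_cos t).smul_const x
      have h2 : HasDerivAt (fun t : ℝ => Real.sin t • y) (Real.cos t • y) t :=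
        (Real.hasDerivAt_sin t).smul_const y
      exact (h1.add h2).hasDerivWithinAt)
    continuousOn_const
    (by
      have : Continuous fun t : ℝ => (-Real.sin t) • x + Real.cos t • y := by fun_prop
      exact this.continuousOn)
    (fun t _ => ⟨hs, norm_cs_one hx hy hxy t⟩)
  refine h.trans (le_of_eq ?_)
  have : ∀ t : ℝ, Real.sqrt ((0 : ℝ) ^ 2 + (f s) ^ 2 * ‖(-Real.sin t) • x + Real.cos t • y‖ ^ 2) =
      f s := by
    intro t
    rw [norm_cs hx hy hxy]
    have : (-Real.sin t) ^ 2 + Real.cos t ^ 2 = 1 := by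
      have := Real.sin_sq_add_cos_sq t; nlinarith
    rw [this]
    simp [Real.sqrt_sq hfs]
  simp only [this]
  rw [intervalIntegral.integral_const, smul_eq_mul, mul_comm]

/-- The spiral from depth `s` to the boundary. -/
lemma spiral_le {L : ℝ} {f : ℝ → ℝ} {Φ : ℝ → V → X} (hΦ : ShortOnCurves L f Φ)
    (hf : Continuous f)
    {x y : V} (hx : ‖x‖ = 1) (hy : ‖y‖ = 1) (hxy : inner ℝ x y = 0)
    {ρ ρ' : ℝ} (hρ : 0 < ρ) (hρρ : ρ < ρ') {s : ℝ} (hs0 : 0 ≤ s) (hsL : s ≤ L)
    (hfs : ∀ r ∈ Icc s L, ρ' ≤ f r) :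
    ∀ Θ : ℝ, Θ = (∫ r in s..L, ρ / (max (f r) ρ' * Real.sqrt ((max (f r) ρ') ^ 2 - ρ ^ 2))) →
    dist (Φ s (Real.cos Θ • x + Real.sin Θ • y)) (Φ L x) ≤
      (∫ r in s..L, Real.sqrt (1 - (ρ / f r) ^ 2)) + ρ * Θ := by
  intro Θ hΘ
  set F : ℝ → ℝ := fun r => max (f r) ρ' with hF
  have hFc : Continuous F := hf.max continuous_const
  have hFge : ∀ r, ρ' ≤ F r := fun r => le_max_right _ _
  have hFpos : ∀ r, 0 < F r := fun r => by linarith [hFge r]
  have hq : ∀ r, 0 < (F r) ^ 2 - ρ ^ 2 := fun r => by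
    have := hFge r
    nlinarith
  set q : ℝ → ℝ := fun r => Real.sqrt ((F r) ^ 2 - ρ ^ 2) with hqd
  have hqpos : ∀ r, 0 < q r := fun r => Real.sqrt_pos.mpr (hq r)
  have hqsq : ∀ r, q r ^ 2 = F r ^ 2 - ρ ^ 2 := fun r => Real.sq_sqrt (hq r).le
  have hqc : Continuous q := (((hFc.pow 2).sub continuous_const)).sqrt
  set k : ℝ → ℝ := fun r => ρ / (F r * q r) with hk
  have hkc : Continuous k := by
    refine continuous_const.div (hFc.mul hqc) (fun r => ?_)
    exact (mul_pos (hFpos r) (hqpos r)).ne'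
  have hkpos : ∀ r, 0 < k r := fun r => div_pos hρ (mul_pos (hFpos r) (hqpos r))
  set Θf : ℝ → ℝ := fun t => ∫ r in t..L, k r with hΘf
  have hΘd : ∀ t, HasDerivAt Θf (-k t) t := fun t =>
    intervalIntegral.integral_hasDerivAt_left (hkc.intervalIntegrable _ _)
      (hkc.stronglyMeasurableAtFilter _ _) hkc.continuousAt
  have hΘc : Continuous Θf := continuous_iff_continuousAt.mpr fun t => (hΘd t).continuousAt
  have hΘs : Θf s = Θ := by rw [hΘ]
  have hΘL : Θf L = 0 := by simp [hΘf]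
  have h := hΦ (fun t => t) (fun _ => 1)
    (fun t => Real.cos (Θf t) • x + Real.sin (Θf t) • y)
    (fun t => (k t * Real.sin (Θf t)) • x + (-(k t * Real.cos (Θf t))) • y) s L hsL
    (fun t _ => hasDerivWithinAt_id t _)
    (fun t _ => by
      have h1 : HasDerivAt (fun t : ℝ => Real.cos (Θf t) • x)
          ((k t * Real.sin (Θf t)) • x) t := by
        have := ((hΘd t).cos).smul_const x
        convert this using 2
        ring
      have h2 : HasDerivAt (fun t : ℝ => Real.sin (Θf t) • y)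
          ((-(k t * Real.cos (Θf t))) • y) t := by
        have := ((hΘd t).sin).smul_const y
        convert this using 2
        ring
      exact (h1.add h2).hasDerivWithinAt)
    continuousOn_const
    (by
      have : Continuous fun t : ℝ =>
          (k t * Real.sin (Θf t)) • x + (-(k t * Real.cos (Θf t))) • y := by fun_prop
      exact this.continuousOn)
    (fun t ht => ⟨⟨hs0.trans ht.1, ht.2⟩, norm_cs_one hx hy hxy _⟩)
  simp only [hΘs, hΘL, Real.cos_zero, Real.sin_zero, one_smul, zero_smul, add_zero] at h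
  refine h.trans (le_of_eq ?_)
  have hint : ∀ t ∈ Icc s L, Real.sqrt ((1 : ℝ) ^ 2 + (f t) ^ 2 *
      ‖(k t * Real.sin (Θf t)) • x + (-(k t * Real.cos (Θf t))) • y‖ ^ 2) =
      Real.sqrt (1 - (ρ / f t) ^ 2) + ρ * k t := by
    intro t ht
    have hft : F t = f t := max_eq_left (hfs t ht)
    rw [norm_cs hx hy hxy, ← hft]
    have e1 : (k t * Real.sin (Θf t)) ^ 2 + (-(k t * Real.cos (Θf t))) ^ 2 = k t ^ 2 := by
      have := Real.sin_sq_add_cos_sq (Θf t)
      calc _ = k t ^ 2 * (Real.sin (Θf t) ^ 2 + Real.cos (Θf t) ^ 2) := by ring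
        _ = _ := by rw [this, mul_one]
    rw [e1]
    have hF0 := hFpos t
    have hq0 := hqpos t
    have e2 : Real.sqrt (1 - (ρ / F t) ^ 2) = q t / F t := by
      rw [Real.sqrt_eq_iff_mul_self_eq_of_pos (div_pos hq0 hF0)]
      have := hqsq t
      field_simp
      nlinarith
    have e3 : (1 : ℝ) ^ 2 + F t ^ 2 * k t ^ 2 = (F t / q t) ^ 2 := by
      simp only [hk]
      have := hqsq t
      field_simp
      nlinarith
    rw [e2, e3, Real.sqrt_sq (div_pos hF0 hq0).le]
    simp only [hk]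
    have := hqsq t
    field_simp
    nlinarith
  have e4 : (∫ t in s..L, Real.sqrt ((1 : ℝ) ^ 2 + (f t) ^ 2 *
      ‖(k t * Real.sin (Θf t)) • x + (-(k t * Real.cos (Θf t))) • y‖ ^ 2)) =
      ∫ t in s..L, (Real.sqrt (1 - (ρ / f t) ^ 2) + ρ * k t) := by
    refine intervalIntegral.integral_congr (fun t ht => ?_)
    rw [uIcc_of_le hsL] at ht
    exact hint t ht
  rw [e4]
  have hi1 : IntervalIntegrable (fun t => Real.sqrt (1 - (ρ / f t) ^ 2)) volume s L := by
    refine ContinuousOn.intervalIntegrable ?_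
    rw [uIcc_of_le hsL]
    refine ContinuousOn.sqrt (continuousOn_const.sub ((ContinuousOn.div continuousOn_const
      hf.continuousOn (fun t ht => ?_)).pow 2))
    have := hfs t ht
    exact (by linarith : (0 : ℝ) < f t).ne'
  have hi2 : IntervalIntegrable (fun t => ρ * k t) volume s L :=
    (continuous_const.mul hkc).intervalIntegrable _ _
  rw [intervalIntegral.integral_add hi1 hi2, intervalIntegral.integral_const_mul, hΘ]

end Pool.Agent.H971R3.FV
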