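import Mathlib
import Pool.Agent.H971R3.FV.Path

set_option autoImplicit false

open MeasureTheory Set

namespace Pool.Agent.H971R3.FV

variable {V X : Type*} [NormedAddCommGroup V] [InnerProductSpace ℝ V] [PseudoMetricSpace X]

lemma sqrt_le_one' (z : ℝ) : Real.sqrt (1 - z ^ 2) ≤ 1 := by
  have : Real.sqrt (1 - z ^ 2) ≤ Real.sqrt 1 := Real.sqrt_le_sqrt (by nlinarith [sq_nonneg z])
  simpa using this

lemma intble {f : ℝ → ℝ} (hf : Continuous f) (ρ a b : ℝ) :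
    IntervalIntegrable (fun r => Real.sqrt (1 - (ρ / f r) ^ 2)) volume a b := by
  have hm : Measurable fun r => Real.sqrt (1 - (ρ / f r) ^ 2) := by
    have := hf.measurable
    exact (measurable_const.sub ((measurable_const.div this).pow_const 2)).sqrt
  refine (intervalIntegrable_const (c := (1 : ℝ))).mono_fun hm.aestronglyMeasurable ?_
  refine Filter.Eventually.of_forall (fun r => ?_)
  simp only [Real.norm_eq_abs, abs_one]
  rw [abs_of_nonneg (Real.sqrt_nonneg _)]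
  exact sqrt_le_one' _

lemma tail_le_E {f : ℝ → ℝ} (hf : Continuous f) {L ρ s : ℝ} (hs0 : 0 ≤ s) (_hsL : s ≤ L) :
    (∫ r in s..L, Real.sqrt (1 - (ρ / f r) ^ 2)) ≤ E f L ρ := by
  unfold E
  rw [← intervalIntegral.integral_add_adjacent_intervals (intble hf ρ 0 s) (intble hf ρ s L)]
  have : 0 ≤ ∫ r in (0:ℝ)..s, Real.sqrt (1 - (ρ / f r) ^ 2) :=
    intervalIntegral.integral_nonneg hs0 (fun r _ => Real.sqrt_nonneg _)
  linarith

lemma one_le_fL {L : ℝ} {f : ℝ → ℝ} {Φ : ℝ → V → X} (hL : 0 < L) (hΦ : ShortOnCurves L f Φ)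
    {x y : V} (hx : ‖x‖ = 1) (hy : ‖y‖ = 1) (hxy : inner ℝ x y = 0)
    (hfL : 0 < f L) (hns : Real.pi ≤ dist (Φ L x) (Φ L (-x))) : 1 ≤ f L := by
  have h := circle_le hΦ hx hy hxy (s := L) ⟨hL.le, le_rfl⟩ hfL.le
    (α := 0) (β := Real.pi) Real.pi_pos.le
  simp only [Real.cos_zero, Real.sin_zero, one_smul, zero_smul, add_zero, Real.cos_pi,
    Real.sin_pi, neg_smul, sub_zero] at h
  have := hns.trans h
  have hp := Real.pi_pos
  nlinarith

/-- The main geometric inequality with a slightly larger turning radius. -/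
lemma turning {L : ℝ} {f : ℝ → ℝ} {Φ : ℝ → V → X} (hL : 0 < L) (hΦ : ShortOnCurves L f Φ)
    (hf : Continuous f) (hpos : ∀ r ∈ Ioc (0 : ℝ) L, 0 < f r)
    {x y : V} (hx : ‖x‖ = 1) (hy : ‖y‖ = 1) (hxy : inner ℝ x y = 0)
    (hns : Real.pi ≤ dist (Φ L x) (Φ L (-x)))
    {ρ ρ' : ℝ} (hρ : 0 < ρ) (hρρ : ρ < ρ') (hρ1 : ρ' < 1)
    (hr0 : ∃ r0 ∈ Icc (0 : ℝ) L, f r0 ≤ ρ') :
    Real.pi / 2 * (1 - ρ') ≤ E f L ρ := by
  have hfL : 1 ≤ f L := one_le_fL hL hΦ hx hy hxy (hpos L ⟨hL, le_rfl⟩) hns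
  -- the last radius where `f ≤ ρ'`
  obtain ⟨r0, hr0I, hr0f⟩ := hr0
  have hcomp : IsCompact (Icc (0 : ℝ) L ∩ f ⁻¹' Iic ρ') :=
    isCompact_Icc.inter_right (isClosed_Iic.preimage hf)
  obtain ⟨s, ⟨hsI, hsf⟩, hsmax⟩ := hcomp.exists_isGreatest ⟨r0, hr0I, hr0f⟩
  have hsf' : f s ≤ ρ' := hsf
  have hsL : s ≤ L := hsI.2
  have hfs : f s = ρ' := by
    have : ρ' ∈ Icc (f s) (f L) := ⟨hsf', by linarith⟩
    obtain ⟨r, hr, hrf⟩ := intermediate_value_Icc hsL hf.continuousOn this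
    have h1 : r ≤ s := hsmax ⟨⟨hsI.1.trans hr.1, hr.2⟩, by simp [hrf]⟩
    have : r = s := le_antisymm h1 hr.1
    rw [← this, hrf]
  have hge : ∀ r ∈ Icc s L, ρ' ≤ f r := by
    intro r hr
    by_contra hlt
    push Not at hlt
    have h1 : r ≤ s := hsmax ⟨⟨hsI.1.trans hr.1, hr.2⟩, hlt.le⟩
    have : r = s := le_antisymm h1 hr.1
    rw [this, hfs] at hlt
    exact lt_irrefl _ hlt
  set k : ℝ → ℝ := fun r => ρ / (max (f r) ρ' * Real.sqrt ((max (f r) ρ') ^ 2 - ρ ^ 2)) with hk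
  have hkc : Continuous k := by
    have hF : Continuous fun r => max (f r) ρ' := hf.max continuous_const
    refine continuous_const.div (hF.mul ((hF.pow 2).sub continuous_const).sqrt) (fun r => ?_)
    have h1 : ρ' ≤ max (f r) ρ' := le_max_right _ _
    have h2 : 0 < (max (f r) ρ') ^ 2 - ρ ^ 2 := by nlinarith
    exact (mul_pos (by linarith) (Real.sqrt_pos.mpr h2)).ne'
  have hknn : ∀ r, 0 ≤ k r := by
    intro r
    have h1 : ρ' ≤ max (f r) ρ' := le_max_right _ _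
    exact div_nonneg hρ.le (mul_nonneg (by linarith) (Real.sqrt_nonneg _))
  have hx' : ‖-x‖ = 1 := by rw [norm_neg, hx]
  have hxy' : inner ℝ (-x) y = 0 := by rw [inner_neg_left, hxy, neg_zero]
  set Θf : ℝ → ℝ := fun t => ∫ r in t..L, k r with hΘf
  have hΘc : Continuous Θf := continuous_iff_continuousAt.mpr fun t =>
    (intervalIntegral.integral_hasDerivAt_left (hkc.intervalIntegrable t L)
      (hkc.stronglyMeasurableAtFilter _ _) hkc.continuousAt).continuousAt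
  -- general comparison at depth `t`
  have main : ∀ t ∈ Icc s L, Θf t ≤ Real.pi / 2 →
      Real.pi ≤ 2 * ((∫ r in t..L, Real.sqrt (1 - (ρ / f r) ^ 2)) + ρ * Θf t) +
        f t * (Real.pi - 2 * Θf t) := by
    intro t ht hle
    have ht0 : 0 ≤ t := hsI.1.trans ht.1
    have hft : ρ' ≤ f t := hge t ht
    have h1 := spiral_le hΦ hf hx hy hxy hρ hρρ ht0 ht.2
      (fun r hr => hge r ⟨ht.1.trans hr.1, hr.2⟩) (Θf t) rfl
    have h2 := spiral_le hΦ hf hx' hy hxy' hρ hρρ ht0 ht.2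
      (fun r hr => hge r ⟨ht.1.trans hr.1, hr.2⟩) (Θf t) rfl
    have h3 := circle_le hΦ hx hy hxy (s := t) ⟨ht0, ht.2⟩ (by linarith : 0 ≤ f t)
      (α := Θf t) (β := Real.pi - Θf t) (by linarith)
    rw [Real.cos_pi_sub, Real.sin_pi_sub] at h3
    rw [smul_neg, ← neg_smul] at h2
    have h4 := dist_triangle4 (Φ L x) (Φ t (Real.cos (Θf t) • x + Real.sin (Θf t) • y))
      (Φ t (-Real.cos (Θf t) • x + Real.sin (Θf t) • y)) (Φ L (-x))
    rw [dist_comm] at h1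
    have : f t * (Real.pi - Θf t - Θf t) = f t * (Real.pi - 2 * Θf t) := by ring
    linarith
  have hpi := Real.pi_pos
  rcases le_or_gt (Θf s) (Real.pi / 2) with hA | hB
  · have h := main s ⟨le_rfl, hsL⟩ hA
    rw [hfs] at h
    have hΘ0 : 0 ≤ Θf s := intervalIntegral.integral_nonneg hsL (fun r _ => hknn r)
    have h5 := tail_le_E hf (ρ := ρ) hsI.1 hsL
    nlinarith
  · have hΘL : Θf L = 0 := by simp [hΘf]
    have hmem : Real.pi / 2 ∈ Icc (Θf L) (Θf s) := ⟨by rw [hΘL]; positivity, hB.le⟩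
    obtain ⟨t, ht, hteq⟩ := intermediate_value_Icc' hsL hΘc.continuousOn hmem
    have h := main t ht hteq.le
    have ht0 : 0 ≤ t := hsI.1.trans ht.1
    have h5 := tail_le_E hf (ρ := ρ) ht0 ht.2
    rw [hteq] at h
    nlinarith

lemma excess_of_le {L : ℝ} {f : ℝ → ℝ} {Φ : ℝ → V → X} (hL : 0 < L) (hΦ : ShortOnCurves L f Φ)
    (hf : Continuous f) (hpos : ∀ r ∈ Ioc (0 : ℝ) L, 0 < f r)
    {x y : V} (hx : ‖x‖ = 1) (hy : ‖y‖ = 1) (hxy : inner ℝ x y = 0)
    (hns : Real.pi ≤ dist (Φ L x) (Φ L (-x)))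
    {ρ : ℝ} (hρ : 0 < ρ) (hρ1 : ρ < 1)
    (hr0 : ∃ r0 ∈ Icc (0 : ℝ) L, f r0 ≤ ρ) :
    Real.pi / 2 * (1 - ρ) ≤ E f L ρ := by
  obtain ⟨r0, hr0I, hr0f⟩ := hr0
  have hpi := Real.pi_pos
  by_contra hlt
  push Not at hlt
  -- choose ρ' slightly larger than ρ
  set δ : ℝ := (Real.pi / 2 * (1 - ρ) - E f L ρ) / Real.pi with hδ
  have hδpos : 0 < δ := div_pos (by linarith) hpi
  set ρ' : ℝ := min (ρ + δ) ((1 + ρ) / 2) with hρ'
  have h1 : ρ < ρ' := lt_min (by linarith) (by linarith)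
  have h2 : ρ' < 1 := (min_le_right _ _).trans_lt (by linarith)
  have h3 : ρ' ≤ ρ + δ := min_le_left _ _
  have h := turning hL hΦ hf hpos hx hy hxy hns hρ h1 h2 ⟨r0, hr0I, hr0f.trans h1.le⟩
  have h4 : Real.pi * δ = Real.pi / 2 * (1 - ρ) - E f L ρ := by
    rw [hδ]; field_simp
  nlinarith

lemma sqrt_concave {t v : ℝ} (ht0 : 0 ≤ t) (ht1 : t ≤ 1) (hv0 : 0 ≤ v) (hv1 : v ≤ 1) :
    (1 - t) + t * Real.sqrt (1 - v ^ 2) ≤ Real.sqrt (1 - (t * v) ^ 2) := by
  set w := Real.sqrt (1 - v ^ 2) with hw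
  have hw0 : 0 ≤ w := Real.sqrt_nonneg _
  have hwsq : w ^ 2 = 1 - v ^ 2 := Real.sq_sqrt (by nlinarith)
  have hw1 : w ≤ 1 := by nlinarith
  apply Real.le_sqrt_of_sq_le
  have h0 : 0 ≤ (1 - t) * (t * (1 - w)) :=
    mul_nonneg (by linarith) (mul_nonneg ht0 (by linarith))
  have hv2 : v ^ 2 = 1 - w ^ 2 := by linarith
  have e : 1 - (t * v) ^ 2 - ((1 - t) + t * w) ^ 2 = 2 * ((1 - t) * (t * (1 - w))) := by
    rw [mul_pow, hv2]; ring
  linarith

/-- The excess inequality `E(ρ) ≥ (π/2)(1-ρ)` for all `ρ ∈ (0,1)`. -/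
theorem excess {L : ℝ} {f : ℝ → ℝ} {Φ : ℝ → V → X} (hL : 0 < L) (hΦ : ShortOnCurves L f Φ)
    (hf : Continuous f) (hpos : ∀ r ∈ Ioc (0 : ℝ) L, 0 < f r)
    (hcap : f 0 = 0 ∨ Real.pi / 2 ≤ L)
    {x y : V} (hx : ‖x‖ = 1) (hy : ‖y‖ = 1) (hxy : inner ℝ x y = 0)
    (hns : Real.pi ≤ dist (Φ L x) (Φ L (-x))) :
    ∀ ρ ∈ Ioo (0 : ℝ) 1, Real.pi / 2 * (1 - ρ) ≤ E f L ρ := by
  intro ρ hρ
  have hpi := Real.pi_pos
  obtain ⟨r0, hr0I, hr0min⟩ := isCompact_Icc.exists_isMinOn (nonempty_Icc.mpr hL.le)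
    hf.continuousOn
  rcases le_or_gt (f r0) ρ with hle | hgt
  · exact excess_of_le hL hΦ hf hpos hx hy hxy hns hρ.1 hρ.2 ⟨r0, hr0I, hle⟩
  · have hmin : ∀ r ∈ Icc (0 : ℝ) L, f r0 ≤ f r := fun r hr => hr0min hr
    have hL2 : Real.pi / 2 ≤ L := by
      rcases hcap with h0 | h
      · exfalso
        have := hmin 0 ⟨le_rfl, hL.le⟩
        rw [h0] at this
        linarith [hρ.1]
      · exact h
    set a := f r0 with ha
    have ha0 : 0 < a := hρ.1.trans hgt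
    rcases le_or_gt 1 a with h1 | h1
    · have hpt : ∀ r ∈ Icc (0 : ℝ) L, (1 - ρ) ≤ Real.sqrt (1 - (ρ / f r) ^ 2) := by
        intro r hr
        have hfr : 1 ≤ f r := h1.trans (hmin r hr)
        apply Real.le_sqrt_of_sq_le
        have h2 : ρ / f r ≤ ρ := div_le_self hρ.1.le hfr
        have h3 : 0 ≤ ρ / f r := div_nonneg hρ.1.le (by linarith)
        have h4 : (ρ / f r) ^ 2 ≤ ρ ^ 2 := by nlinarith
        nlinarith [hρ.1, hρ.2]
      have : L * (1 - ρ) ≤ E f L ρ := by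
        unfold E
        have := intervalIntegral.integral_mono_on hL.le
          (intervalIntegrable_const (c := 1 - ρ)) (intble hf ρ 0 L) hpt
        rw [intervalIntegral.integral_const, smul_eq_mul, sub_zero] at this
        exact this
      nlinarith [hρ.1, hρ.2]
    · have hEa : Real.pi / 2 * (1 - a) ≤ E f L a :=
        excess_of_le hL hΦ hf hpos hx hy hxy hns ha0 h1 ⟨r0, hr0I, le_rfl⟩
      set t := ρ / a with ht
      have ht0 : 0 < t := div_pos hρ.1 ha0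
      have ht1 : t < 1 := (div_lt_one ha0).mpr hgt
      have hta : t * a = ρ := div_mul_cancel₀ _ ha0.ne'
      have hpt : ∀ r ∈ Icc (0 : ℝ) L, (1 - t) + t * Real.sqrt (1 - (a / f r) ^ 2) ≤
          Real.sqrt (1 - (ρ / f r) ^ 2) := by
        intro r hr
        have hfr : a ≤ f r := hmin r hr
        have hfr0 : 0 < f r := ha0.trans_le hfr
        have := sqrt_concave ht0.le ht1.le (div_nonneg ha0.le hfr0.le)
          ((div_le_one hfr0).mpr hfr)
        rwa [← mul_div_assoc, hta] at this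
      have hint : IntervalIntegrable
          (fun r => (1 - t) + t * Real.sqrt (1 - (a / f r) ^ 2)) volume 0 L :=
        (intervalIntegrable_const).add ((intble hf a 0 L).const_mul t)
      have h5 : (1 - t) * L + t * E f L a ≤ E f L ρ := by
        have h6 := intervalIntegral.integral_mono_on hL.le hint (intble hf ρ 0 L) hpt
        rw [intervalIntegral.integral_add intervalIntegrable_const
          ((intble hf a 0 L).const_mul t), intervalIntegral.integral_const,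
          intervalIntegral.integral_const_mul, smul_eq_mul, sub_zero] at h6
        unfold E
        linarith
      nlinarith

end Pool.Agent.H971R3.FV
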