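import Mathlib
import Pool.Agent.H971R3.FV.Excess

set_option autoImplicit false

open MeasureTheory Set

namespace Pool.Agent.H971R3.FV

/-- The surface measure of the round unit sphere `S^d ⊆ ℝ^(d+1)`. -/
noncomputable abbrev sphereMeasure (d : ℕ) :
    Measure (Metric.sphere (0 : EuclideanSpace ℝ (Fin (d + 1))) 1) :=
  (volume : Measure (EuclideanSpace ℝ (Fin (d + 1)))).toSphere

/-- `Φ : [0,L] × S^d → X` is a rotationally symmetric (warped product) collar of the metric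
measure space `X`, with warping function `f`:  the map `Φ` does not increase the lengths
`∫ √(r'² + f(r)² |u'|²)` of `C^1` curves, and the measure of the image of a Borel set
`A ⊆ (0,L] × S^d` is at least the warped product volume `∫_A f(r)^d dr dσ` of `A`. -/
structure WarpedCollar (d : ℕ) {X : Type*} [MetricSpace X] [MeasurableSpace X] (μ : Measure X)
    (L : ℝ) (f : ℝ → ℝ) (Φ : ℝ → EuclideanSpace ℝ (Fin (d + 1)) → X) : Prop where
  width_pos : 0 < L
  cont : ContinuousOn f (Icc 0 L)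
  pos : ∀ r ∈ Ioc (0 : ℝ) L, 0 < f r
  short : ShortOnCurves L f Φ
  vol : ∀ A : Set (ℝ × Metric.sphere (0 : EuclideanSpace ℝ (Fin (d + 1))) 1),
    MeasurableSet A → A ⊆ Ioc (0 : ℝ) L ×ˢ univ →
    ∫⁻ p in A, ENNReal.ofReal (f p.1 ^ d) ∂(volume.prod (sphereMeasure d)) ≤
      μ ((fun p => Φ p.1 p.2) '' A)

lemma exists_orth (d : ℕ) (hd : 1 ≤ d) (x : EuclideanSpace ℝ (Fin (d + 1))) (hx : ‖x‖ = 1) :
    ∃ y : EuclideanSpace ℝ (Fin (d + 1)), ‖y‖ = 1 ∧ inner ℝ x y = 0 := by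
  have : Fact (Module.finrank ℝ (EuclideanSpace ℝ (Fin (d + 1))) = d + 1) := ⟨by simp⟩
  have hx0 : x ≠ 0 := by
    intro h; rw [h, norm_zero] at hx; exact zero_ne_one hx
  have h1 : Module.finrank ℝ (Submodule.span ℝ {x})ᗮ = d :=
    Submodule.finrank_orthogonal_span_singleton hx0
  have h2 : 0 < Module.finrank ℝ (Submodule.span ℝ {x})ᗮ := by omega
  obtain ⟨z, hz⟩ := Module.finrank_pos_iff_exists_ne_zero.mp h2
  have hz0 : (z : EuclideanSpace ℝ (Fin (d + 1))) ≠ 0 := by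
    intro h; exact hz (Subtype.ext h)
  have hzx : inner ℝ x (z : EuclideanSpace ℝ (Fin (d + 1))) = 0 :=
    (Submodule.mem_orthogonal_singleton_iff_inner_right).mp z.2
  refine ⟨(‖(z : EuclideanSpace ℝ (Fin (d + 1)))‖⁻¹) • (z : EuclideanSpace ℝ (Fin (d + 1))),
    ?_, ?_⟩
  · rw [norm_smul, norm_inv, norm_norm, inv_mul_cancel₀ (norm_ne_zero_iff.mpr hz0)]
  · rw [inner_smul_right, hzx, mul_zero]

lemma c_nonneg (d : ℕ) : 0 ≤ c d := by
  unfold c
  refine intervalIntegral.integral_nonneg zero_le_one (fun u hu => ?_)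
  exact mul_nonneg (pow_nonneg hu.1 _) (Real.sqrt_nonneg _)

lemma vol_le {d : ℕ} {X : Type*} [MetricSpace X] [MeasurableSpace X] {μ : Measure X}
    {L : ℝ} {f g : ℝ → ℝ} {Φ : ℝ → EuclideanSpace ℝ (Fin (d + 1)) → X}
    (h : WarpedCollar d μ L f Φ) (hg : Continuous g) (hfg : ∀ r ∈ Icc (0 : ℝ) L, g r = f r) :
    ENNReal.ofReal (∫ r in (0 : ℝ)..L, g r ^ d) * sphereMeasure d univ ≤ μ univ := by
  have h1 := h.vol (Ioc (0 : ℝ) L ×ˢ univ) (measurableSet_Ioc.prod MeasurableSet.univ)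
    (subset_refl _)
  refine le_trans ?_ (h1.trans (measure_mono (subset_univ _)))
  have h2 : ∫⁻ p in Ioc (0 : ℝ) L ×ˢ univ, ENNReal.ofReal (f p.1 ^ d)
      ∂(volume.prod (sphereMeasure d)) =
      ∫⁻ p in Ioc (0 : ℝ) L ×ˢ univ, ENNReal.ofReal (g p.1 ^ d)
      ∂(volume.prod (sphereMeasure d)) := by
    refine setLIntegral_congr_fun (measurableSet_Ioc.prod MeasurableSet.univ) ?_
    intro p hp
    simp only
    rw [hfg p.1 (Ioc_subset_Icc_self hp.1)]
  rw [h2, ← Measure.prod_restrict, Measure.restrict_univ]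
  have hm : Measurable fun p : ℝ × Metric.sphere (0 : EuclideanSpace ℝ (Fin (d + 1))) 1 =>
      ENNReal.ofReal (g p.1 ^ d) :=
    ((hg.measurable.comp measurable_fst).pow_const d).ennreal_ofReal
  rw [lintegral_prod _ hm.aemeasurable]
  simp only [lintegral_const]
  rw [lintegral_mul_const _ ((hg.measurable.pow_const d).ennreal_ofReal)]
  refine mul_le_mul' (le_of_eq ?_) le_rfl
  rw [intervalIntegral.integral_of_le h.width_pos.le,
    ofReal_integral_eq_lintegral_ofReal]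
  · have : IntegrableOn (fun r => g r ^ d) (Icc 0 L) :=
      (hg.pow d).continuousOn.integrableOn_Icc
    exact this.mono_set Ioc_subset_Icc_self
  · refine (ae_restrict_iff' measurableSet_Ioc).mpr (Filter.Eventually.of_forall fun r hr => ?_)
    change 0 ≤ g r ^ d
    rw [hfg r (Ioc_subset_Icc_self hr)]
    exact pow_nonneg (h.pos r hr).le d

/-- The sharp filling inequality, from the three calculus facts. -/
theorem main_of (hW : TaskWallis) (hS : TaskSphere) (hF : TaskFubini)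
    (d : ℕ) (hd : 1 ≤ d) {X : Type*} [MetricSpace X] [MeasurableSpace X] (μ : Measure X)
    (L : ℝ) (f : ℝ → ℝ) (Φ : ℝ → EuclideanSpace ℝ (Fin (d + 1)) → X)
    (h : WarpedCollar d μ L f Φ) (hcap : f 0 = 0 ∨ Real.pi / 2 ≤ L)
    (hns : ∃ x : EuclideanSpace ℝ (Fin (d + 1)), ‖x‖ = 1 ∧
      Real.pi ≤ dist (Φ L x) (Φ L (-x))) :
    (volume : Measure (EuclideanSpace ℝ (Fin (d + 2)))).toSphere univ / 2 ≤ μ univ := by
  obtain ⟨x, hx, hdist⟩ := hns
  obtain ⟨y, hy, hxy⟩ := exists_orth d hd x hx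
  have hL := h.width_pos
  -- continuous extension of `f`
  obtain ⟨g, hg, hfg⟩ : ∃ g : ℝ → ℝ, Continuous g ∧ ∀ r ∈ Icc (0 : ℝ) L, g r = f r := by
    refine ⟨IccExtend hL.le ((Icc (0 : ℝ) L).domRestrict f), ?_, ?_⟩
    · exact (continuousOn_iff_continuous_domRestrict.mp h.cont).Icc_extend'
    · intro r hr
      rw [IccExtend_of_mem hL.le _ hr]
      rfl
  have hshort : ShortOnCurves L g Φ := by
    intro r r' u u' a b hab h1 h2 h3 h4 h5
    refine (h.short r r' u u' a b hab h1 h2 h3 h4 h5).trans (le_of_eq ?_)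
    refine intervalIntegral.integral_congr (fun t ht => ?_)
    rw [uIcc_of_le hab] at ht
    rw [hfg _ (h5 t ht).1]
  have hpos : ∀ r ∈ Ioc (0 : ℝ) L, 0 < g r := fun r hr => by
    rw [hfg r (Ioc_subset_Icc_self hr)]; exact h.pos r hr
  have hcap' : g 0 = 0 ∨ Real.pi / 2 ≤ L := by
    rw [hfg 0 ⟨le_rfl, hL.le⟩]; exact hcap
  have hE := excess hL hshort hg hpos hcap' hx hy hxy hdist
  have hI := hF d L g hd hL hg hpos hE
  have hw := hW d hd
  set I := ∫ r in (0 : ℝ)..L, g r ^ d with hIdef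
  have hc := c_nonneg d
  have hpi := Real.pi_pos
  have hdd : (0 : ℝ) < (d : ℝ) * (d + 1) := by positivity
  have hcpos : 0 < (d : ℝ) * (d + 1) * c d := by
    rcases hc.lt_or_eq with h1 | h1
    · positivity
    · exfalso
      rw [← h1] at hw
      simp at hw
      linarith
  have hWI : W d ≤ I := by
    have : (d : ℝ) * (d + 1) * c d * W d ≤ (d : ℝ) * (d + 1) * c d * I := by
      calc (d : ℝ) * (d + 1) * c d * W d = c d * W d * ((d : ℝ) * (d + 1)) := by ring
        _ = Real.pi / 2 := hw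
        _ ≤ _ := hI
    exact le_of_mul_le_mul_left this hcpos
  have hvol := vol_le h hg hfg
  refine le_trans ?_ hvol
  rw [hS d hd, ENNReal.ofReal_mul (by norm_num : (0 : ℝ) ≤ 2)]
  have e2 : ENNReal.ofReal (2 : ℝ) = 2 := by simp
  have e3 : ∀ z : ENNReal, 2 * ENNReal.ofReal (W d) * z / 2 = ENNReal.ofReal (W d) * z := by
    intro z
    rw [mul_assoc, mul_comm (2 : ENNReal), ENNReal.mul_div_cancel_right (by norm_num) (by simp)]
  rw [e2, e3]
  exact mul_le_mul' (ENNReal.ofReal_le_ofReal hWI) le_rfl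

end Pool.Agent.H971R3.FV
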