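import Mathlib
import Pool.Agent.H971R3.FV.Main
import Pool.Agent.H971R3.FV.Avg

set_option autoImplicit false

open MeasureTheory Set

namespace Pool.Agent.H971R3.FV

/-- `Φ : [0,L] × S^d → X` is a collar of the metric measure space `X` on which the metric is
conformal to a rotationally symmetric one, `φ(r,u)² (dr² + f(r)² g_S)`: `Φ` does not increase the
lengths `∫ φ √(r'² + f(r)² |u'|²)` of `C^1` curves, and the measure of the image of a Borel set
`A ⊆ (0,L] × S^d` is at least its volume `∫_A φ^(d+1) f^d dr dσ`. -/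
structure ConformalCollar (d : ℕ) {X : Type} [MetricSpace X] [MeasurableSpace X] (μ : Measure X)
    (L : ℝ) (f : ℝ → ℝ) (φ : ℝ → EuclideanSpace ℝ (Fin (d + 1)) → ℝ)
    (Φ : ℝ → EuclideanSpace ℝ (Fin (d + 1)) → X) : Prop where
  width_pos : 0 < L
  cont_f : Continuous f
  pos_f : ∀ r ∈ Ioc (0 : ℝ) L, 0 < f r
  cont_φ : Continuous fun p : ℝ × EuclideanSpace ℝ (Fin (d + 1)) => φ p.1 p.2
  pos_φ : ∀ r ∈ Icc (0 : ℝ) L, ∀ u, ‖u‖ = 1 → 0 < φ r u
  cont_Φ : ∀ r ∈ Icc (0 : ℝ) L, ContinuousOn (Φ r) (Metric.sphere 0 1)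
  short : ShortConformal L f φ Φ
  vol : ∀ A : Set (ℝ × Metric.sphere (0 : EuclideanSpace ℝ (Fin (d + 1))) 1),
    MeasurableSet A → A ⊆ Ioc (0 : ℝ) L ×ˢ univ →
    ∫⁻ p in A, ENNReal.ofReal (φ p.1 p.2 ^ (d + 1) * f p.1 ^ d)
        ∂(volume.prod (sphereMeasure d)) ≤
      μ ((fun p => Φ p.1 p.2) '' A)

/-- The sharp filling inequality for conformally rotationally symmetric collars, from the
calculus facts. -/
theorem conformal_of (hW : TaskWallis) (hS : TaskSphere) (hF : TaskFubini) (hAvg : TaskAvg)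
    (hRep : TaskRepar) (hVol : TaskVol)
    (d : ℕ) (hd : 1 ≤ d) {X : Type} [MetricSpace X] [MeasurableSpace X] (μ : Measure X)
    (L : ℝ) (f : ℝ → ℝ) (φ : ℝ → EuclideanSpace ℝ (Fin (d + 1)) → ℝ)
    (Φ : ℝ → EuclideanSpace ℝ (Fin (d + 1)) → X)
    (h : ConformalCollar d μ L f φ Φ)
    (hcap : f 0 = 0 ∨ Real.pi / 2 * (sphereMeasure d).real univ ≤
      ∫ r in (0 : ℝ)..L, ∫ u, φ r u ∂(sphereMeasure d))
    (hns : ∀ x : EuclideanSpace ℝ (Fin (d + 1)), ‖x‖ = 1 →
      Real.pi ≤ dist (Φ L x) (Φ L (-x))) :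
    (volume : Measure (EuclideanSpace ℝ (Fin (d + 2)))).toSphere univ / 2 ≤ μ univ := by
  obtain ⟨Ω, _, _, _, _, P, _, R, hR, hRF⟩ := hAvg d hd
  have hL := h.width_pos
  -- total mass
  have hmass : 0 < (sphereMeasure d).real univ := by
    have h1 : sphereMeasure d ≠ 0 := Measure.toSphere_ne_zero _
    have h2 : sphereMeasure d univ ≠ 0 := by
      intro h0; exact h1 (Measure.measure_univ_eq_zero.mp h0)
    exact ENNReal.toReal_pos h2 (measure_ne_top _ _)
  set S := (sphereMeasure d).real univ with hSdef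
  set A : ℝ → ℝ := fun r => (∫ u, φ r u ∂(sphereMeasure d)) / S with hAdef
  have hAS : ∀ r, A r * S = ∫ u, φ r u ∂(sphereMeasure d) := fun r =>
    div_mul_cancel₀ _ hmass.ne'
  have hA : ∀ r (v : EuclideanSpace ℝ (Fin (d + 1))), ‖v‖ = 1 →
      ∫ ω, φ r (R ω v) ∂P = A r := by
    intro r v hv
    have h1 := hRF (φ r) (h.cont_φ.comp (continuous_const.prodMk continuous_id)).continuousOn v hv
    rw [eq_div_iff hmass.ne']
    exact h1
  obtain ⟨hAc, hApos, hvolA⟩ := hVol d L f φ hd hL h.cont_f h.cont_φ h.pos_f h.pos_φ A hAS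
  -- a unit vector and an orthogonal one
  obtain ⟨x0, hx0⟩ : ∃ x0 : EuclideanSpace ℝ (Fin (d + 1)), ‖x0‖ = 1 :=
    ⟨EuclideanSpace.single 0 1, by simp⟩
  obtain ⟨y0, hy0, hxy0⟩ := exists_orth d hd x0 hx0
  let hat := hatPM (x0 := x0) P hL.le hx0 hR h.cont_Φ
  have hs := avg_short P hL hx0 hR h.cont_Φ h.cont_f h.cont_φ h.short hA
  obtain ⟨g, k, hg, hL', hgpos, hg0, hkL, hsh, hint⟩ :=
    @hRep (EuclideanSpace ℝ (Fin (d + 1))) (ℝ × EuclideanSpace ℝ (Fin (d + 1))) _ _ hat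
      L A f (fun r u => (r, u)) hL hAc h.cont_f hApos h.pos_f hs
  set L' := ∫ r in (0 : ℝ)..L, A r with hL'def
  have hshort : @ShortOnCurves (EuclideanSpace ℝ (Fin (d + 1)))
      (ℝ × EuclideanSpace ℝ (Fin (d + 1))) _ _ hat L' g (fun s u => (k s, u)) := by
    intro r r' u u' a b hab h1 h2 h3 h4 h5
    have := hsh r r' u u' a b hab h1 h2 h3 h4 h5
    simpa only [one_mul] using this
  have hcap' : g 0 = 0 ∨ Real.pi / 2 ≤ L' := by
    rcases hcap with h0 | h0
    · exact Or.inl (hg0 h0)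
    · right
      have e : L' = (∫ r in (0 : ℝ)..L, ∫ u, φ r u ∂(sphereMeasure d)) / S := by
        rw [hL'def]
        simp only [hAdef]
        rw [intervalIntegral.integral_div]
      rw [e, le_div_iff₀ hmass]
      exact h0
  have hns' : Real.pi ≤ @dist _ hat.toDist (k L', x0) (k L', -x0) := by
    change Real.pi ≤ FV.hd P R L Φ x0 (k L', x0) (k L', -x0)
    unfold FV.hd
    simp only [hkL]
    have e1 : Cl L L = L := Cl_eq ⟨hL.le, le_rfl⟩
    have e2 : Nu x0 x0 = x0 := Nu_eq _ hx0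
    have hx0' : ‖-x0‖ = 1 := by rw [norm_neg, hx0]
    have e3 : Nu x0 (-x0) = -x0 := Nu_eq _ hx0'
    simp only [e1, e2, e3, map_neg]
    have i1 := integrable_pt P hR h.cont_Φ (⟨hL.le, le_rfl⟩ : L ∈ Icc 0 L) hx0
      (⟨hL.le, le_rfl⟩ : L ∈ Icc 0 L) hx0'
    simp only [map_neg] at i1
    calc Real.pi = ∫ _ω, Real.pi ∂P := by simp
      _ ≤ _ := integral_mono (integrable_const _) i1
        (fun ω => hns (R ω x0) (by simp [hx0]))
  have hE := @excess (EuclideanSpace ℝ (Fin (d + 1)))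
      (ℝ × EuclideanSpace ℝ (Fin (d + 1))) _ _ hat L' g (fun s u => (k s, u))
      hL' hshort hg hgpos hcap' x0 y0 hx0 hy0 hxy0 hns'
  have hI := hF d L' g hd hL' hg hgpos hE
  rw [hint d] at hI
  have hw := hW d hd
  set I := ∫ r in (0 : ℝ)..L, A r ^ (d + 1) * f r ^ d with hIdef
  have hc := c_nonneg d
  have hpi := Real.pi_pos
  have hdd : (0 : ℝ) < (d : ℝ) * (d + 1) := by positivity
  have hcpos : 0 < (d : ℝ) * (d + 1) * c d := by
    rcases hc.lt_or_eq with h1 | h1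
    · positivity
    · exfalso
      rw [← h1] at hw
      simp at hw
      linarith
  have hWI : W d ≤ I := by
    have : (d : ℝ) * (d + 1) * c d * W d ≤ (d : ℝ) * (d + 1) * c d * I := by
      calc (d : ℝ) * (d + 1) * c d * W d = c d * W d * ((d : ℝ) * (d + 1)) := by ring
        _ = Real.pi / 2 := hw
        _ ≤ _ := hI
    exact le_of_mul_le_mul_left this hcpos
  have hv := h.vol (Ioc (0 : ℝ) L ×ˢ univ) (measurableSet_Ioc.prod MeasurableSet.univ)
    (subset_refl _)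
  refine le_trans ?_ (hvolA.trans (hv.trans (measure_mono (subset_univ _))))
  rw [hS d hd, ENNReal.ofReal_mul (by norm_num : (0 : ℝ) ≤ 2)]
  have e2 : ENNReal.ofReal (2 : ℝ) = 2 := by simp
  have e3 : ∀ z : ENNReal, 2 * ENNReal.ofReal (W d) * z / 2 = ENNReal.ofReal (W d) * z := by
    intro z
    rw [mul_assoc, mul_comm (2 : ENNReal), ENNReal.mul_div_cancel_right (by norm_num) (by simp)]
  rw [e2, e3]
  exact mul_le_mul' (ENNReal.ofReal_le_ofReal hWI) le_rfl

end Pool.Agent.H971R3.FV
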