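import Mathlib

/-!
# Rotationally symmetric collars, up to a conformal factor

Definitions for the filling inequality of the round sphere.
-/

set_option autoImplicit false

open MeasureTheory Set

namespace Pool.Agent.H971R3.FV

/-- Euclidean space `ℝ^n`. -/
def Eu (n : ℕ) : Type := EuclideanSpace ℝ (Fin n)

noncomputable instance instEu (n : ℕ) : NormedAddCommGroup (Eu n) :=
  inferInstanceAs (NormedAddCommGroup (EuclideanSpace ℝ (Fin n)))

noncomputable instance instEuInner (n : ℕ) : InnerProductSpace ℝ (Eu n) :=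
  inferInstanceAs (InnerProductSpace ℝ (EuclideanSpace ℝ (Fin n)))

/-- The unit sphere `S^d` of `ℝ^(d+1)`. -/
def Sd (d : ℕ) : Type := Metric.sphere (0 : EuclideanSpace ℝ (Fin (d + 1))) 1

noncomputable instance instSd (d : ℕ) : MeasurableSpace (Sd d) :=
  inferInstanceAs (MeasurableSpace (Metric.sphere (0 : EuclideanSpace ℝ (Fin (d + 1))) 1))

/-- The inclusion of `S^d` in `ℝ^(d+1)`. -/
def inc {d : ℕ} (u : Sd d) : Eu (d + 1) := Subtype.val u

/-- The surface measure of `S^d`. -/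
noncomputable def sig (d : ℕ) : Measure (Sd d) :=
  (volume : Measure (EuclideanSpace ℝ (Fin (d + 1)))).toSphere

/-- `Φ` does not increase lengths: the distance in `X` between the endpoints of the image of a
`C^1` curve `(r, u)` of `[0,L] × S^d` is at most its length
`∫ φ(r,u) √(r'² + f(r)² |u'|²) dt` for the metric `φ(r,u)² (dr² + f(r)² g_S)`. -/
def Short (d : ℕ) {X : Type} [MetricSpace X] (L : ℝ) (f : ℝ → ℝ) (φ : ℝ → Eu (d + 1) → ℝ)
    (Φ : ℝ → Eu (d + 1) → X) : Prop :=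
  ∀ (r r' : ℝ → ℝ) (u u' : ℝ → Eu (d + 1)) (a b : ℝ), a ≤ b →
    (∀ t ∈ Icc a b, HasDerivWithinAt r (r' t) (Icc a b) t) →
    (∀ t ∈ Icc a b, HasDerivWithinAt u (u' t) (Icc a b) t) →
    ContinuousOn r' (Icc a b) → ContinuousOn u' (Icc a b) →
    (∀ t ∈ Icc a b, r t ∈ Icc 0 L ∧ ‖u t‖ = 1) →
    dist (Φ (r a) (u a)) (Φ (r b) (u b)) ≤
      ∫ t in a..b, φ (r t) (u t) * Real.sqrt ((r' t) ^ 2 + (f (r t)) ^ 2 * ‖u' t‖ ^ 2)

/-- `Φ : [0,L] × S^d → X` is a collar of the metric measure space `X` on which the metric is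
conformal to a rotationally symmetric one, `φ(r,u)² (dr² + f(r)² g_S)`: `Φ` does not increase
lengths, and the measure of the image of a Borel set `A ⊆ (0,L] × S^d` is at least its volume
`∫_A φ^(d+1) f^d dr dσ`. -/
structure Collar (d : ℕ) {X : Type} [MetricSpace X] [MeasurableSpace X] (μ : Measure X)
    (L : ℝ) (f : ℝ → ℝ) (φ : ℝ → Eu (d + 1) → ℝ) (Φ : ℝ → Eu (d + 1) → X) : Prop where
  width_pos : 0 < L
  cont_f : Continuous f
  pos_f : ∀ r ∈ Ioc (0 : ℝ) L, 0 < f r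
  cont_φ : Continuous fun p : ℝ × Eu (d + 1) => φ p.1 p.2
  pos_φ : ∀ r ∈ Icc (0 : ℝ) L, ∀ u, ‖u‖ = 1 → 0 < φ r u
  cont_Φ : ∀ r ∈ Icc (0 : ℝ) L, ContinuousOn (Φ r) {u | ‖u‖ = 1}
  short : Short d L f φ Φ
  vol : ∀ A : Set (ℝ × Sd d), MeasurableSet A → A ⊆ Ioc (0 : ℝ) L ×ˢ univ →
    ∫⁻ p in A, ENNReal.ofReal (φ p.1 (inc p.2) ^ (d + 1) * f p.1 ^ d) ∂(volume.prod (sig d)) ≤
      μ ((fun p => Φ p.1 (inc p.2)) '' A)

end Pool.Agent.H971R3.FV
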