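import Pool.Agent.H971R3.FV.Final
import Pool.Agent.H971R3.FV.Pub

set_option autoImplicit false

open MeasureTheory Set

namespace Pool.Agent.H971R3.FV

theorem pub_of (hW : TaskWallis) (hS : TaskSphere) (hF : TaskFubini) (hAvg : TaskAvg)
    (hRep : TaskRepar) (hVol : TaskVol)
    (d : ℕ) (hd : 1 ≤ d) (X : Type) [MetricSpace X] [MeasurableSpace X] (μ : Measure X)
    (L : ℝ) (f : ℝ → ℝ) (φ : ℝ → Eu (d + 1) → ℝ) (Φ : ℝ → Eu (d + 1) → X)
    (h : Collar d μ L f φ Φ)
    (hcap : f 0 = 0 ∨ Real.pi / 2 * (sig d).real univ ≤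
      ∫ r in (0 : ℝ)..L, ∫ u, φ r (inc u) ∂(sig d))
    (hns : ∀ x : Eu (d + 1), ‖x‖ = 1 → Real.pi ≤ dist (Φ L x) (Φ L (-x))) :
    sig (d + 1) univ / 2 ≤ μ univ := by
  have h' : ConformalCollar d μ L f φ Φ :=
    { width_pos := h.width_pos
      cont_f := h.cont_f
      pos_f := h.pos_f
      cont_φ := h.cont_φ
      pos_φ := h.pos_φ
      cont_Φ := fun r hr => by
        have e : Metric.sphere (0 : EuclideanSpace ℝ (Fin (d + 1))) 1 = {u | ‖u‖ = 1} := by
          ext u; simp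
        rw [e]
        exact h.cont_Φ r hr
      short := h.short
      vol := h.vol }
  exact conformal_of hW hS hF hAvg hRep hVol d hd μ L f φ Φ h' hcap hns

end Pool.Agent.H971R3.FV
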